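import Pool.Agent.Q270.CJ.Cf
import Pool.Agent.Q270.CJ.Half

/-!
# The limit of Rotkiewicz's ratio `N(p) / Nbar(p)` is `1`

If `p ≡ 1 mod 4`, then `N(p) = Nbar(p)`. If `p ≡ 3 mod 4`, then
`Nbar(p) - N(p) = 2 ∑_{n < p / 2} (n / p)`, which is nonnegative and at most
`2 √p (1 + log p)` by the Pólya-Vinogradov argument, while `N(p) + Nbar(p) = φ(p) ≥ p ^ (3 / 5)`.
-/

set_option autoImplicit false

open Finset Filter Topology

namespace Pool.Agent.Results.MP_7c82b6_nt.LimitIsOne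

open Pool.Agent.Q270.CJ

lemma pow_three_le {p : ℕ} (hp : 3 ≤ p) : p ^ 3 ≤ (p - 1) ^ 5 := by
  obtain ⟨x, rfl⟩ : ∃ x, p = x + 3 := ⟨p - 3, by omega⟩
  rw [show x + 3 - 1 = x + 2 by omega]
  have h : (x + 2) ^ 5 = (x + 3) ^ 3 +
      (x ^ 5 + 10 * x ^ 4 + 39 * x ^ 3 + 71 * x ^ 2 + 53 * x + 5) := by ring
  omega

lemma cube_le_totient (n : ℕ) : Odd n → n ^ 3 ≤ (Nat.totient n) ^ 5 := by
  induction n using Nat.recOnPosPrimePosCoprime with
  | prime_pow p k hp hk =>
    intro hodd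
    have hp3 : 3 ≤ p := by
      rcases hp.eq_two_or_odd with h | h
      · exfalso
        rw [h] at hodd
        exact (Nat.not_odd_iff_even.2 ((even_two).pow_of_ne_zero hk.ne')) hodd
      · have := hp.two_le
        omega
    rw [Nat.totient_prime_pow hp hk, mul_pow]
    obtain ⟨l, rfl⟩ : ∃ l, k = l + 1 := ⟨k - 1, by omega⟩
    rw [show l + 1 - 1 = l by omega]
    calc (p ^ (l + 1)) ^ 3 = (p ^ l) ^ 3 * p ^ 3 := by ring
      _ ≤ (p ^ l) ^ 5 * (p - 1) ^ 5 := by
        apply Nat.mul_le_mul _ (pow_three_le hp3)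
        exact Nat.pow_le_pow_right (Nat.pos_of_ne_zero (pow_ne_zero _ (by omega))) (by norm_num)
  | zero => intro h; simp at h
  | one => intro _; simp
  | coprime a b ha hb hab iha ihb =>
    intro hodd
    rw [Nat.totient_mul hab, mul_pow, mul_pow]
    obtain ⟨h1, h2⟩ := Nat.odd_mul.1 hodd
    exact Nat.mul_le_mul (iha h1) (ihb h2)

lemma rpow_le_totient {n : ℕ} (hodd : Odd n) : (n : ℝ) ^ (3 / 5 : ℝ) ≤ Nat.totient n := by
  have h1 := cube_le_totient n hodd
  have h2 : (n : ℝ) ^ 3 ≤ (Nat.totient n : ℝ) ^ 5 := by exact_mod_cast h1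
  have h3 : ((n : ℝ) ^ (3 / 5 : ℝ)) ^ 5 = (n : ℝ) ^ 3 := by
    rw [← Real.rpow_natCast, ← Real.rpow_mul (by positivity), ← Real.rpow_natCast]
    norm_num
  rw [← h3] at h2
  exact le_of_pow_le_pow_left₀ (by norm_num) (by positivity) h2

lemma ratio_bound {p : ℕ} (hp : 3 ≤ p) (hodd : p % 2 = 1) :
    |(N p : ℝ) / Nbar p - 1| ≤ 4 * (1 + Real.log p) / (p : ℝ) ^ (1 / 10 : ℝ) := by
  have hoddp : Odd p := by rw [Nat.odd_iff]; exact hodd
  have hadd := N_add (p := p) (by omega)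
  have hsub := N_sub p
  have htot := rpow_le_totient hoddp
  have hp0 : (0 : ℝ) < p := by
    have : 0 < p := by omega
    exact_mod_cast this
  have hlog : 0 ≤ Real.log p := Real.log_natCast_nonneg p
  have haddR : (N p : ℝ) + Nbar p = Nat.totient p := by exact_mod_cast hadd
  have hpw : 0 < (p : ℝ) ^ (3 / 5 : ℝ) := by positivity
  have hRHS : 0 ≤ 4 * (1 + Real.log p) / (p : ℝ) ^ (1 / 10 : ℝ) := by positivity
  rcases (by omega : p % 4 = 1 ∨ p % 4 = 3) with h | h
  · rw [D_one h] at hsub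
    have h1 : (N p : ℝ) = Nbar p := by
      have : (N p : ℤ) = Nbar p := by linarith
      exact_mod_cast this
    have h2 : (0 : ℝ) < Nbar p := by linarith
    rw [h1, div_self h2.ne', sub_self, abs_zero]
    exact hRHS
  · rw [D_eq h] at hsub
    have hS0 : (0 : ℝ) ≤ S p := by exact_mod_cast S_nonneg h
    have hSb := S_bound h
    rw [abs_of_nonneg hS0] at hSb
    have hsubR : (N p : ℝ) - Nbar p = -2 * S p := by exact_mod_cast hsub
    have hNb : (p : ℝ) ^ (3 / 5 : ℝ) / 2 ≤ Nbar p := by linarith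
    have hNb0 : (0 : ℝ) < Nbar p := by linarith
    have h1 : (N p : ℝ) / Nbar p - 1 = -(2 * S p / Nbar p) := by
      field_simp
      linarith
    rw [h1, abs_neg, abs_of_nonneg (by positivity)]
    calc 2 * (S p : ℝ) / Nbar p ≤ 2 * (Real.sqrt p * (1 + Real.log p)) /
          ((p : ℝ) ^ (3 / 5 : ℝ) / 2) := by gcongr
      _ = 4 * (1 + Real.log p) / (p : ℝ) ^ (1 / 10 : ℝ) := by
        rw [Real.sqrt_eq_rpow, show (3 / 5 : ℝ) = 1 / 2 + 1 / 10 by norm_num, Real.rpow_add hp0]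
        have h2 : (p : ℝ) ^ (1 / 2 : ℝ) ≠ 0 := by positivity
        field_simp
        ring

/-- `N(p) / Nbar(p)` tends to `1` as `p = 2 k + 1` tends to infinity through the odd integers. -/
theorem result :
    Tendsto (fun k : ℕ => (N (2 * k + 1) : ℝ) / Nbar (2 * k + 1)) atTop (𝓝 1) := by
  have hodd : Tendsto (fun k : ℕ => ((2 * k + 1 : ℕ) : ℝ)) atTop atTop := by
    apply tendsto_natCast_atTop_atTop.comp
    apply tendsto_atTop_mono (fun k => (by omega : k ≤ 2 * k + 1))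
    exact tendsto_id
  have h1 : Tendsto (fun x : ℝ => 4 * (1 + Real.log x) / x ^ (1 / 10 : ℝ)) atTop (𝓝 0) := by
    have h2 : Tendsto (fun x : ℝ => Real.log x / x ^ (1 / 10 : ℝ)) atTop (𝓝 0) :=
      (isLittleO_log_rpow_atTop (by norm_num)).tendsto_div_nhds_zero
    have h3 : Tendsto (fun x : ℝ => 1 / x ^ (1 / 10 : ℝ)) atTop (𝓝 0) := by
      simp only [one_div]
      exact (tendsto_rpow_atTop (by norm_num : (0 : ℝ) < 1 / 10)).inv_tendsto_atTop.congr
        (fun x => by simp)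
    have h4 := (h3.add h2).const_mul 4
    rw [add_zero, mul_zero] at h4
    refine h4.congr (fun x => ?_)
    ring
  have h5 := h1.comp hodd
  have h6 : Tendsto (fun k : ℕ => (N (2 * k + 1) : ℝ) / Nbar (2 * k + 1) - 1) atTop (𝓝 0) := by
    refine squeeze_zero_norm' ?_ h5
    filter_upwards [eventually_ge_atTop 1] with k hk
    rw [Real.norm_eq_abs]
    exact ratio_bound (by omega) (by omega)
  have h7 := h6.add_const 1
  simpa using h7

end Pool.Agent.Results.MP_7c82b6_nt.LimitIsOne
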